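import Mathlib
import Pool.Agent.Work.MP_8b6acb_co.Star

/-! The square-counting inequality with edge capacity `c`. -/

set_option linter.unusedSectionVars false

namespace MP_8b6acb_co.R

open Finset

variable {α : Type*} [Fintype α] [DecidableEq α]

/-- A cut `(A, X, B)` saturated by a flow `M`. -/
structure CutFlow (A B X : Finset (Finset α)) (M : Finset α → α → ℤ) (c q : ℤ) : Prop where
  M0 : ∀ u a, 0 ≤ M u a
  M1 : ∀ u a, M u a ≤ c
  Mval : ∀ u a, a ∈ u → M u a = 0
  AB : Disjoint A B
  AX : Disjoint A X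
  BX : Disjoint B X
  cut : ∀ u a, u ∈ A → a ∉ u → insert a u ∈ B → M u a = c
  toA : ∀ u a, a ∉ u → insert a u ∈ A → u ∉ A → M u a = 0
  toX : ∀ u a, a ∉ u → insert a u ∈ X → u ∉ A → M u a = 0
  toB : ∀ u a, a ∉ u → (u ∈ B ∨ u ∈ X) → insert a u ∉ B → M u a = 0
  inX : ∀ x ∈ X, fin M x = q
  outX : ∀ x ∈ X, fout M x = q
  conv : ∀ w a b, w ∈ A → a ∉ w → b ∉ w → a ≠ b → insert b (insert a w) ∈ B →
    insert a w ∈ A ∨ insert a w ∈ B ∨ insert a w ∈ X

variable {M : Finset α → α → ℤ} {A B X : Finset (Finset α)} {c q : ℤ}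

theorem CutFlow.sum_cut (h : CutFlow A B X M c q) :
    ∑ u, ∑ b, kk A B u b * M u b = c * ∑ u, ∑ b, kk A B u b := by
  rw [mul_sum]
  refine sum_congr rfl (fun u _ => ?_)
  rw [mul_sum]
  refine sum_congr rfl (fun b _ => ?_)
  unfold kk ind
  by_cases hb : b ∈ u
  · simp [hb]
  · by_cases hA : u ∈ A
    · by_cases hB : insert b u ∈ B
      · simp [hb, hA, hB, h.cut u b hA hb hB]
      · simp [hB]
    · simp [hA]

theorem CutFlow.sum_AX (h : CutFlow A B X M c q) :
    ∑ u, ∑ b, kk A X u b * M u b = q * X.card := by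
  have h1 : ∑ u, ∑ b, kk A X u b * M u b = ∑ b, ∑ u : Finset α,
      (if b ∉ u then (ind X (insert b u) * M ((insert b u).erase b) b) else 0) := by
    rw [sum_comm]
    refine sum_congr rfl (fun b _ => sum_congr rfl (fun u _ => ?_))
    unfold kk ind
    by_cases hb : b ∈ u
    · simp [hb]
    · rw [erase_insert hb]
      by_cases hA : u ∈ A
      · simp [hb, hA]
      · by_cases hX : insert b u ∈ X
        · simp [hb, hA, hX, h.toX u b hb hX hA]
        · simp [hX]
  rw [h1]
  have h0 : ∀ b, ∑ u : Finset α, (if b ∉ u then (ind X (insert b u) * M ((insert b u).erase b) b) else 0)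
      = ∑ v : Finset α, (if b ∈ v then ind X v * M (v.erase b) b else 0) :=
    fun b => (reindex b (fun v => ind X v * M (v.erase b) b)).symm
  simp_rw [h0]
  rw [sum_comm]
  have h2 : ∀ v, ∑ b, (if b ∈ v then ind X v * M (v.erase b) b else 0) = ind X v * q := by
    intro v
    have h3 : ∑ b, (if b ∈ v then ind X v * M (v.erase b) b else 0) = ind X v * fin M v := by
      unfold fin
      rw [mul_sum]
      refine sum_congr rfl (fun b _ => ?_)
      rw [mul_ite, mul_zero]
    rw [h3]
    unfold ind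
    by_cases hX : v ∈ X
    · simp [hX, h.inX v hX]
    · simp [hX]
  simp_rw [h2]
  rw [← sum_mul]
  unfold ind
  rw [sum_boole]
  simp [mul_comm]

theorem CutFlow.sum_XB (h : CutFlow A B X M c q) :
    ∑ u, ∑ b, kk X B u b * M u b = q * X.card := by
  have h2 : ∀ u, ∑ b, kk X B u b * M u b = ind X u * q := by
    intro u
    have h3 : ∑ b, kk X B u b * M u b = ind X u * fout M u := by
      unfold fout
      rw [mul_sum]
      refine sum_congr rfl (fun b _ => ?_)
      unfold kk ind
      by_cases hb : b ∈ u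
      · simp [hb, h.Mval u b hb]
      · by_cases hX : u ∈ X
        · by_cases hB : insert b u ∈ B
          · simp [hb, hX, hB]
          · simp [hB, h.toB u b hb (Or.inr hX) hB]
        · simp [hX]
    rw [h3]
    unfold ind
    by_cases hX : u ∈ X
    · simp [hX, h.outX u hX]
    · simp [hX]
  simp_rw [h2]
  rw [← sum_mul]
  unfold ind
  rw [sum_boole]
  simp [mul_comm]

theorem CutFlow.q_AX (h : CutFlow A B X M c q) :
    q * ∑ u, ∑ b, kk A X u b = ∑ u, ∑ b, kk A X u b * fout M (insert b u) := by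
  rw [mul_sum]
  refine sum_congr rfl (fun u _ => ?_)
  rw [mul_sum]
  refine sum_congr rfl (fun b _ => ?_)
  unfold kk ind
  by_cases hX : insert b u ∈ X
  · rw [h.outX _ hX]; ring
  · simp [hX]

theorem CutFlow.q_XB (h : CutFlow A B X M c q) :
    q * ∑ u, ∑ b, kk X B u b = ∑ u, ∑ b, kk X B u b * fin M u := by
  rw [mul_sum]
  refine sum_congr rfl (fun u _ => ?_)
  rw [mul_sum]
  refine sum_congr rfl (fun b _ => ?_)
  unfold kk ind
  by_cases hX : u ∈ X
  · rw [h.inX _ hX]; ring
  · simp [hX]

theorem CutFlow.theta_le (h : CutFlow A B X M c q) (w : Finset α) (a b : α) (ha : a ∉ w)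
    (hb : b ∉ w) (hab : a ≠ b) : theta A B X M w a b + theta A B X M w b a ≤ 0 := by
  have hby : b ∉ insert a w := by simp [hb, Ne.symm hab]
  have hay' : a ∉ insert b w := by simp [ha, hab]
  have hz : insert a (insert b w) = insert b (insert a w) := Finset.insert_comm _ _ _
  have c1 := h.M0 w a
  have c2 := h.M0 w b
  have c3 := h.M0 (insert a w) b
  have c4 := h.M0 (insert b w) a
  have d1 := h.M1 w a
  have d2 := h.M1 w b
  have d3 := h.M1 (insert a w) b
  have d4 := h.M1 (insert b w) a
  have e1 := h.cut w a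
  have e2 := h.cut w b
  have e3 := h.cut (insert a w) b
  have e4 := h.cut (insert b w) a
  have f1 := h.toA w a ha
  have f2 := h.toA w b hb
  have f3 := h.toX w a ha
  have f4 := h.toX w b hb
  have g1 := h.toB (insert a w) b hby
  have g2 := h.toB (insert b w) a hay'
  have i1 := h.conv w a b
  have i2 := h.conv w b a
  have j1 : insert a w ∈ A → insert a w ∉ B := fun p => Finset.disjoint_left.1 h.AB p
  have j2 : insert a w ∈ A → insert a w ∉ X := fun p => Finset.disjoint_left.1 h.AX p
  have j3 : insert a w ∈ B → insert a w ∉ X := fun p => Finset.disjoint_left.1 h.BX p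
  have j4 : insert b w ∈ A → insert b w ∉ B := fun p => Finset.disjoint_left.1 h.AB p
  have j5 : insert b w ∈ A → insert b w ∉ X := fun p => Finset.disjoint_left.1 h.AX p
  have j6 : insert b w ∈ B → insert b w ∉ X := fun p => Finset.disjoint_left.1 h.BX p
  unfold theta kk ind
  rw [hz] at e4 g2 i2 ⊢
  simp only [ha, hb, hby, hay', not_false_eq_true, if_true, true_implies, hab, Ne.symm hab, ne_eq] at *
  generalize M w a = m1 at *
  generalize M w b = m2 at *
  generalize M (insert a w) b = m3 at *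
  generalize M (insert b w) a = m4 at *
  by_cases hw : w ∈ A <;> by_cases hzB : insert b (insert a w) ∈ B <;>
  by_cases y1 : insert a w ∈ A <;> by_cases y2 : insert a w ∈ B <;> by_cases y3 : insert a w ∈ X <;>
  by_cases v1 : insert b w ∈ A <;> by_cases v2 : insert b w ∈ B <;> by_cases v3 : insert b w ∈ X <;>
  simp only [hw, hzB, y1, y2, y3, v1, v2, v3, if_true, if_false, not_true_eq_false,
    not_false_eq_true, true_implies, false_implies, or_true, or_false,
    imp_false, implies_true] at * <;>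
  omega

/-- The square inequality (★). -/
theorem CutFlow.star (h : CutFlow A B X M c q) :
    2 * (c * ∑ u, ∑ b, kk A B u b) + 2 * (q * X.card) + ∑ u, ∑ b, kk A X u b * (q - fout M u) +
      ∑ u, ∑ b, kk X B u b * (q - fin M (insert b u)) ≤
    ∑ u, ∑ b, kk A B u b * (fout M u - fin M u) +
      ∑ u, ∑ b, kk A B u b * (fin M (insert b u) - fout M (insert b u)) := by
  have E1 := sum_in M (kk A B) (kk_mem A B)
  have E2 := sum_out M (kk A B) h.Mval (kk_mem A B)
  have E3 := sum_out_head M (kk A B) h.Mval (kk_mem A B)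
  have E4 := sum_in_head M (kk A B) (kk_mem A B)
  have E5 := sum_out M (kk A X) h.Mval (kk_mem A X)
  have E6 := sum_in M (kk X B) (kk_mem X B)
  have E7 := sum_in_head M (kk X B) (kk_mem X B)
  have E8 := sum_out_head M (kk A X) h.Mval (kk_mem A X)
  rw [h.sum_cut] at E2 E4
  rw [h.sum_AX] at E5
  rw [h.sum_XB] at E7
  rw [← h.q_AX] at E8
  rw [← h.q_XB] at E6
  have E9 : sq (fun w a b => theta A B X M w a b) ≤ 0 :=
    sq_nonpos _ (fun w a b ha hb hab => h.theta_le w a b ha hb hab)
  simp only [theta, sq_add', sq_sub'] at E9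
  have s1 := sum_mul_sub (kk A X) (fun _ _ => q) (fun u _ => fout M u)
  have s2 := sum_mul_sub (kk X B) (fun _ _ => q) (fun u b => fin M (insert b u))
  have s3 := sum_mul_sub (kk A B) (fun u _ => fout M u) (fun u _ => fin M u)
  have s4 := sum_mul_sub (kk A B) (fun u b => fin M (insert b u)) (fun u b => fout M (insert b u))
  have s5 := sum_mul_const (kk A X) q
  have s6 := sum_mul_const (kk X B) q
  rw [s1, s2, s3, s4, s5, s6]
  generalize ∑ u, ∑ b, kk A B u b = v0 at *
  generalize ∑ u, ∑ b, kk A X u b = v1 at *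
  generalize ∑ u, ∑ b, kk X B u b = v2 at *
  linarith

end MP_8b6acb_co.R
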