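import Mathlib
import Pool.Agent.Work.MP_8b6acb_co.StarCex
import Pool.Agent.Work.MP_8b6acb_co_R.RMin

/-! The square inequality for minimal counterexamples with edge capacity `c`. -/

set_option linter.unusedSectionVars false

namespace MP_8b6acb_co.R

open Finset

variable {α : Type*} [Fintype α] [DecidableEq α]

variable {c q i j : ℕ} {S A : Finset (Finset α)} {φ : Finset α → Finset α}

/-- The deficiency of a minimal counterexample. -/
def del (c q i j : ℕ) (S : Finset (Finset α)) (φ : Finset α → Finset α) (A : Finset (Finset α)) : ℕ :=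
  q * S.card - cost c q i j (S.image φ) A

theorem MinCex.del_add (h : MinCex c q i j S φ A) :
    del c q i j S φ A + cost c q i j (S.image φ) A = q * S.card := by
  have := h.viol
  unfold del
  omega

theorem MinCex.del_pos (h : MinCex c q i j S φ A) : 0 < del c q i j S φ A := by
  have := h.viol
  unfold del
  omega

theorem MinCex.T_sub_B (h : MinCex c q i j S φ A) (h2 : i + 2 ≤ j) :
    S.image φ ⊆ Bset c q i j (S.image φ) A := by
  intro t ht
  rw [mem_B]
  refine ⟨Or.inr ht, ?_, ?_⟩
  · intro hA
    have h1 := h.cardA (by omega) t hA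
    have h3 := h.cardT t ht
    omega
  · rw [mem_image] at ht
    obtain ⟨s, hs, rfl⟩ := ht
    exact (h.dgT h2 hs).le

/-- All facts about the saturating flow. -/
theorem MinCex.cutFlow (h : MinCex c q i j S φ A) (h2 : i + 2 ≤ j) {s0 : Finset α} (hs0 : s0 ∈ S) :
    ∃ M : Finset α → α → ℤ,
      CutFlow A (Bset c q i j (S.image φ) A) (Xset c q i j (S.image φ) A) M c q ∧
      (∀ s ∈ S, fin M s = 0 ∧ fout M s = q - (if s = s0 then (del c q i j S φ A : ℤ) else 0)) ∧
      (∀ t ∈ S.image φ, fout M t = 0 ∧ fin M t = q - (if t = φ s0 then (del c q i j S φ A : ℤ) else 0)) ∧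
      (∀ v ∈ Mid i j, fout M v = fin M v ∧ fout M v ≤ q) ∧
      (∀ u a, M u a ≠ 0 → insert a u ∈ Mid i j ∨ insert a u ∈ S.image φ) := by
  obtain ⟨M, hM⟩ := h.flow h2 hs0
  have hδq := h.delta_le h2 hs0
  have hviol := h.viol
  have hsum : cost c q i j (S.image φ) A ≤ ∑ s ∈ S,
      (if s = s0 then q - (q * S.card - cost c q i j (S.image φ) A) else q) := by
    have e1 := sum_change hδq S s0
    rw [if_pos hs0] at e1
    omega
  have hT0 : ∀ t ∈ S.image φ, t ∉ Mid i j := by
    intro t ht hm
    rw [mem_Mid, h.cardT t ht] at hm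
    omega
  have hCF := toCutFlow hM h.mat.cS h.cardT (by omega) h.SA h.Amem
    (by intro t _; split_ifs <;> omega)
    (by
      intro t ht
      rw [mem_image] at ht
      obtain ⟨s, hs, rfl⟩ := ht
      exact (h.dgT h2 hs).le) hsum
  refine ⟨_, hCF, ?_, ?_, ?_, ?_⟩
  · intro s hs
    constructor
    · unfold fin
      apply sum_eq_zero
      intro x _
      by_cases hx : x ∈ s
      · rw [if_pos hx]
        by_contra hne
        have hne' : M (s.erase x) x ≠ 0 := fun h0 => hne (by simp [h0])
        have h4 := hM.head _ _ hne'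
        rw [insert_erase hx] at h4
        rcases h4 with h5 | h5
        · rw [mem_Mid, h.mat.cS s hs] at h5
          omega
        · have h6 := h.cardT s h5
          rw [h.mat.cS s hs] at h6
          omega
      · simp [hx]
    · have h4 := hM.src s hs
      unfold fout
      rw [← Nat.cast_sum, h4]
      unfold del
      split_ifs <;> omega
  · intro t ht
    constructor
    · unfold fout
      apply sum_eq_zero
      intro x _
      by_contra hne
      have hne' : M t x ≠ 0 := fun h0 => hne (by simp [h0])
      have hxt : x ∉ t := fun hx => hne' (hM.val t x hx)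
      have h4 := hM.head _ _ hne'
      rcases h4 with h5 | h5
      · rw [mem_Mid, card_insert_of_notMem hxt, h.cardT t ht] at h5
        omega
      · have h6 := h.cardT _ h5
        rw [card_insert_of_notMem hxt, h.cardT t ht] at h6
        omega
    · have h4 := hM.snk t ht
      have h5 : fin (fun u x => (M u x : ℤ)) t = (inf M t : ℤ) := by
        unfold fin inf
        push_cast
        rfl
      rw [h5, h4]
      unfold del
      split_ifs <;> omega
  · intro v hv
    have h4 := hM.mid v hv
    have h5 := hM.mid_le v hv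
    have h6 : fin (fun u x => (M u x : ℤ)) v = (inf M v : ℤ) := by
      unfold fin inf
      push_cast
      rfl
    have h7 : fout (fun u x => (M u x : ℤ)) v = ((∑ x, M v x : ℕ) : ℤ) := by
      unfold fout
      push_cast
      rfl
    rw [h6, h7]
    constructor
    · exact_mod_cast h4
    · exact_mod_cast h5
  · intro u a hne
    exact hM.head u a (by exact_mod_cast hne)

theorem cost_B (c q i j : ℕ) (S A : Finset (Finset α)) (φ : Finset α → Finset α) :
    (cost c q i j (S.image φ) A : ℤ) = ∑ v, ind (Bset c q i j (S.image φ) A) v * (c * dg A v : ℤ) +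
      q * (Xset c q i j (S.image φ) A).card := by
  have e1 : (q : ℤ) * (Xset c q i j (S.image φ) A).card = ∑ v, ind (Xset c q i j (S.image φ) A) v * q := by
    rw [← sum_mul]
    unfold ind
    rw [sum_boole]
    simp [mul_comm]
  rw [e1, ← sum_add_distrib]
  unfold cost
  push_cast
  refine sum_congr rfl (fun v _ => ?_)
  unfold ind
  by_cases hc : (v ∈ Mid i j ∨ v ∈ S.image φ) ∧ v ∉ A
  · by_cases hd : c * dg A v ≤ q
    · have h1 : v ∈ Bset c q i j (S.image φ) A := mem_B.2 ⟨hc.1, hc.2, hd⟩
      have h2 : v ∉ Xset c q i j (S.image φ) A := fun hh => by rw [mem_X] at hh; omega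
      rw [if_pos hc, if_pos h1, if_neg h2]
      have : min (q : ℤ) (c * dg A v) = c * dg A v := min_eq_right (by exact_mod_cast hd)
      rw [this]
      ring
    · have h1 : v ∉ Bset c q i j (S.image φ) A := fun hh => by rw [mem_B] at hh; omega
      have h2 : v ∈ Xset c q i j (S.image φ) A := mem_X.2 ⟨hc.1, hc.2, by omega⟩
      rw [if_pos hc, if_neg h1, if_pos h2]
      have : min (q : ℤ) (c * dg A v) = q := min_eq_left (by exact_mod_cast (by omega : q ≤ c * dg A v))
      rw [this]
      ring
  · have h1 : v ∉ Bset c q i j (S.image φ) A := fun hh => by rw [mem_B] at hh; exact hc ⟨hh.1, hh.2.1⟩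
    have h2 : v ∉ Xset c q i j (S.image φ) A := fun hh => by rw [mem_X] at hh; exact hc ⟨hh.1, hh.2.1⟩
    rw [if_neg hc, if_neg h1, if_neg h2]
    ring

/-- The square inequality for a minimal counterexample. -/
theorem MinCex.star (h : MinCex c q i j S φ A) (h2 : i + 2 ≤ j) {s0 : Finset α} (hs0 : s0 ∈ S) :
    2 * cost c q i j (S.image φ) A + del c q i j S φ A * (ub (Xset c q i j (S.image φ) A) s0 +
      dg (Xset c q i j (S.image φ) A) (φ s0) + ub (Bset c q i j (S.image φ) A) s0 + dg A (φ s0)) ≤
    q * ∑ s ∈ S, (ub (Bset c q i j (S.image φ) A) s + dg A (φ s)) := by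
  obtain ⟨M, hCF, hsrc, hsnk, hmid, _⟩ := h.cutFlow h2 hs0
  have hTB := h.T_sub_B h2
  have hcost := cost_B c q i j S A φ
  set B := Bset c q i j (S.image φ) A with hB
  set X := Xset c q i j (S.image φ) A with hX
  set δ := del c q i j S φ A with hδ
  have hst := hCF.star
  have ht0 : φ s0 ∈ S.image φ := mem_image_of_mem _ hs0
  -- rewrite all the terms
  have e0 : ∑ u, ∑ b, kk A B u b = ∑ v, ind B v * (dg A v : ℤ) := by
    have := kk_col A B (fun _ => 1)
    simpa using this
  have e1 : ∑ u, ∑ b, kk A X u b * ((q : ℤ) - fout M u) = ∑ u, ind A u * (ub X u : ℤ) * (q - fout M u) := by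
    refine sum_congr rfl (fun u _ => ?_)
    rw [← sum_mul, kk_row]
  have e2 : ∑ u, ∑ b, kk X B u b * ((q : ℤ) - fin M (insert b u)) =
      ∑ v, ind B v * (dg X v : ℤ) * (q - fin M v) := kk_col X B (fun v => q - fin M v)
  have e3 : ∑ u, ∑ b, kk A B u b * (fout M u - fin M u) =
      ∑ u, ind A u * (ub B u : ℤ) * (fout M u - fin M u) := by
    refine sum_congr rfl (fun u _ => ?_)
    rw [← sum_mul, kk_row]
  have e4 : ∑ u, ∑ b, kk A B u b * (fin M (insert b u) - fout M (insert b u)) =
      ∑ v, ind B v * (dg A v : ℤ) * (fin M v - fout M v) := kk_col A B (fun v => fin M v - fout M v)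
  rw [e0, e1, e2, e3, e4] at hst
  -- bounds
  have f1 : (δ : ℤ) * ub X s0 ≤ ∑ u, ind A u * (ub X u : ℤ) * (q - fout M u) := by
    have hnn : ∀ u ∈ (univ : Finset (Finset α)), 0 ≤ ind A u * (ub X u : ℤ) * (q - fout M u) := by
      intro u _
      by_cases hu : u ∈ A
      · have : 0 ≤ (q : ℤ) - fout M u := by
          rcases h.Amem u hu with h3 | h3
          · rw [(hsrc u h3).2]
            split_ifs <;> simp [δ]
          · linarith [(hmid u h3).2]
        unfold ind
        rw [if_pos hu, one_mul]
        positivity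
      · simp [ind, hu]
    refine le_trans (le_of_eq ?_) (single_le_sum hnn (mem_univ s0))
    rw [(hsrc s0 hs0).2]
    simp only [ind, if_pos (h.SA hs0), if_true]
    ring
  have f2 : (δ : ℤ) * dg X (φ s0) ≤ ∑ v, ind B v * (dg X v : ℤ) * (q - fin M v) := by
    have hnn : ∀ v ∈ (univ : Finset (Finset α)), 0 ≤ ind B v * (dg X v : ℤ) * (q - fin M v) := by
      intro v _
      by_cases hv : v ∈ B
      · have : 0 ≤ (q : ℤ) - fin M v := by
          have hv' := hv
          rw [hB, mem_B] at hv'
          rcases hv'.1 with h3 | h3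
          · linarith [(hmid v h3).2, (hmid v h3).1]
          · rw [(hsnk v h3).2]
            split_ifs <;> simp [δ]
        unfold ind
        rw [if_pos hv, one_mul]
        positivity
      · simp [ind, hv]
    refine le_trans (le_of_eq ?_) (single_le_sum hnn (mem_univ (φ s0)))
    rw [(hsnk _ ht0).2]
    simp only [ind, if_pos (hTB ht0), if_true]
    ring
  have f3 : ∑ u, ind A u * (ub B u : ℤ) * (fout M u - fin M u) =
      q * ∑ s ∈ S, (ub B s : ℤ) - δ * ub B s0 := by
    have g1 : ∀ u, ind A u * (ub B u : ℤ) * (fout M u - fin M u) =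
        if u ∈ S then (q : ℤ) * ub B u - (if u = s0 then (δ : ℤ) * ub B u else 0) else 0 := by
      intro u
      by_cases hu : u ∈ S
      · rw [if_pos hu, (hsrc u hu).1, (hsrc u hu).2]
        simp only [ind, if_pos (h.SA hu)]
        split_ifs <;> ring
      · rw [if_neg hu]
        by_cases hA : u ∈ A
        · have h3 := (h.Amem u hA).resolve_left hu
          rw [(hmid u h3).1]
          ring
        · simp [ind, hA]
    rw [sum_congr rfl (fun u _ => g1 u), sum_mem, sum_sub_distrib, ← mul_sum]
    congr 1
    rw [sum_ite_eq' S s0 (fun u => (δ : ℤ) * ub B u), if_pos hs0]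
  have f4 : ∑ v, ind B v * (dg A v : ℤ) * (fin M v - fout M v) =
      q * ∑ s ∈ S, (dg A (φ s) : ℤ) - δ * dg A (φ s0) := by
    have g1 : ∀ v, ind B v * (dg A v : ℤ) * (fin M v - fout M v) =
        if v ∈ S.image φ then (q : ℤ) * dg A v - (if v = φ s0 then (δ : ℤ) * dg A v else 0) else 0 := by
      intro v
      by_cases hv : v ∈ S.image φ
      · rw [if_pos hv, (hsnk v hv).1, (hsnk v hv).2]
        simp only [ind, if_pos (hTB hv)]
        split_ifs <;> ring
      · rw [if_neg hv]
        by_cases hvB : v ∈ B
        · have hv' := hvB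
          rw [hB, mem_B] at hv'
          have h3 := hv'.1.resolve_right hv
          rw [(hmid v h3).1]
          ring
        · simp [ind, hvB]
    rw [sum_congr rfl (fun u _ => g1 u), sum_mem, sum_sub_distrib, ← mul_sum]
    congr 1
    · congr 1
      rw [sum_image]
      exact fun x hx y hy => h.mat.inj (mem_coe.2 hx) (mem_coe.2 hy)
    · rw [sum_ite_eq' (S.image φ) (φ s0) (fun u => (δ : ℤ) * dg A u), if_pos ht0]
  rw [f3, f4] at hst
  have f5 : ∑ v, ind B v * ((c : ℤ) * dg A v) = c * ∑ v, ind B v * (dg A v : ℤ) := by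
    rw [mul_sum]
    exact sum_congr rfl (fun v _ => by ring)
  rw [f5] at hcost
  zify
  rw [sum_add_distrib]
  rw [hcost]
  linarith

theorem MinCex.nonempty (h : MinCex c q i j S φ A) : S.Nonempty := by
  rw [nonempty_iff_ne_empty]
  rintro rfl
  have := h.viol
  simp at this

end MP_8b6acb_co.R
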