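import Mathlib
import Pool.Agent.Work.MP_8b6acb_co.Split
import Pool.Agent.Work.MP_8b6acb_co_R.RStarCex

/-! The recursion for the cut condition with rational edge capacities. -/

set_option linter.unusedSectionVars false

namespace MP_8b6acb_co.R

open Finset

variable {α : Type*} [Fintype α] [DecidableEq α]

variable (α) in
/-- The sharp first layer inequality. -/
def FLsharp : Prop :=
  ∀ (q l a : ℕ) (S : Finset (Finset α)) (φ : Finset α → Finset α), 1 ≤ q → q ≤ l →
    Mat a (a + l) S φ → ∀ L : Finset (Finset α),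
      (∀ v : Finset α, v.card = a + 1 → (∃ s ∈ S, v ⊆ φ s) → v ∈ L) →
      q * S.card ≤ ∑ v ∈ L, min q (dg S v)

theorem TClaim_near {pc pq l a b : ℕ} {R : ℕ → ℕ} (hab : a < b) (hP : PP α pc pq a b)
    (hR : ∀ k, a < k → k ≤ b → R k = l * pc) : TClaim α (l * pq) R a b := by
  classical
  intro S φ hm A hSA hA
  set T := S.image φ with hT
  have hTcard : ∀ t ∈ T, t.card = b := by
    intro t ht
    rw [hT, mem_image] at ht
    obtain ⟨s, hs, rfl⟩ := ht
    exact hm.cT s hs
  set A' := S ∪ A.filter (fun u => u ∈ Mid a b) ∪ (Mid a b).filter (fun v => ¬ ∃ t ∈ T, v ⊆ t)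
    with hA'
  have hSA' : S ⊆ A' := fun s hs => mem_union_left _ (mem_union_left _ hs)
  have hmem : ∀ u ∈ A', u ∈ S ∨ u ∈ Mid a b := by
    intro u hu
    rw [hA', mem_union, mem_union, mem_filter, mem_filter] at hu
    rcases hu with (h | h) | h
    · exact Or.inl h
    · exact Or.inr h.2
    · exact Or.inr h.1
  have h1 := hP S φ hm A' hSA' hmem
  have h2 : l * cost pc pq a b T A' ≤ tc (l * pq) R a b T A := by
    unfold cost tc
    rw [mul_sum]
    refine sum_le_sum (fun v _ => ?_)
    by_cases hc : (v ∈ Mid a b ∨ v ∈ T) ∧ v ∉ A'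
    · rw [if_pos hc]
      obtain ⟨hc1, hc2⟩ := hc
      have hcard : a < v.card ∧ v.card ≤ b := by
        rcases hc1 with h | h
        · rw [mem_Mid] at h; omega
        · rw [hTcard v h]; omega
      have hvA : v ∉ A := by
        intro hv
        rcases hc1 with h | h
        · exact hc2 (mem_union_left _ (mem_union_right _ (mem_filter.2 ⟨hv, h⟩)))
        · have := hA v hv
          rw [hTcard v h] at this
          omega
      have hbel : ∃ t ∈ T, v ⊆ t := by
        rcases hc1 with h | h
        · by_contra hn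
          exact hc2 (mem_union_right _ (mem_filter.2 ⟨h, hn⟩))
        · exact ⟨v, h, subset_refl _⟩
      rw [if_pos ⟨hcard, hvA, hbel⟩, hR _ hcard.1 hcard.2]
      have hdg : dg A' v ≤ dg A v := by
        unfold dg
        apply card_le_card
        intro x hx
        rw [mem_filter] at hx ⊢
        refine ⟨hx.1, ?_⟩
        have h3 := hx.2
        rw [hA', mem_union, mem_union, mem_filter, mem_filter] at h3
        rcases h3 with (h | h) | h
        · exact hSA h
        · exact h.1
        · exfalso
          obtain ⟨t, ht, hvt⟩ := hbel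
          exact h.2 ⟨t, ht, (erase_subset _ _).trans hvt⟩
      rw [← Nat.mul_min_mul_left, mul_assoc]
      apply min_le_min_left
      exact Nat.mul_le_mul_left _ (Nat.mul_le_mul_left _ hdg)
    · rw [if_neg hc, mul_zero]
      exact Nat.zero_le _
  calc l * pq * S.card = l * (pq * S.card) := by ring
    _ ≤ l * cost pc pq a b T A' := Nat.mul_le_mul_left _ h1
    _ ≤ _ := h2

theorem TClaim_first (hFL : FLsharp α) {p c a b : ℕ} {R : ℕ → ℕ} (hc : 1 ≤ c) (hab : a + c ≤ b)
    (hR : R (a + 1) = p) {S : Finset (Finset α)} {φ : Finset α → Finset α} (hm : Mat a b S φ)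
    (A : Finset (Finset α)) (hSA : S ⊆ A) (hA : ∀ u ∈ A, u.card < a + 1) :
    c * p * S.card ≤ tc (c * p) R a b (S.image φ) A := by
  classical
  obtain ⟨l, rfl⟩ : ∃ l, b = a + l := ⟨b - a, by omega⟩
  set L := univ.filter (fun v : Finset α => v.card = a + 1 ∧ ∃ s ∈ S, v ⊆ φ s) with hL
  have h1 := hFL c l a S φ hc (by omega) hm L (by
    intro v h1 h2
    rw [hL, mem_filter]
    exact ⟨mem_univ _, h1, h2⟩)
  have h2 : p * ∑ v ∈ L, min c (dg S v) ≤ tc (c * p) R a (a + l) (S.image φ) A := by
    unfold tc
    rw [mul_sum, ← sum_mem L]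
    refine sum_le_sum (fun v _ => ?_)
    by_cases hv : v ∈ L
    · rw [if_pos hv]
      rw [hL, mem_filter] at hv
      obtain ⟨_, hv1, s, hs, hvs⟩ := hv
      have hvA : v ∉ A := by
        intro h
        have := hA v h
        omega
      rw [if_pos ⟨⟨by omega, by omega⟩, hvA, φ s, mem_image_of_mem _ hs, hvs⟩, hv1, hR,
        mul_comm c p, ← Nat.mul_min_mul_left]
      apply min_le_min_left
      apply Nat.mul_le_mul_left
      unfold dg
      apply card_le_card
      intro x hx
      rw [mem_filter] at hx ⊢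
      exact ⟨hx.1, hSA hx.2⟩
    · rw [if_neg hv]
      exact Nat.zero_le _
  calc c * p * S.card = p * (c * S.card) := by ring
    _ ≤ p * ∑ v ∈ L, min c (dg S v) := Nat.mul_le_mul_left _ h1
    _ ≤ _ := h2

/-- The weights: `x` on layer `a + 1`, `y` elsewhere. -/
def R1 (x y a k : ℕ) : ℕ := if k = a + 1 then x else y

theorem TClaim_one (hFL : FLsharp α) {pc pq l a : ℕ} (hl : 2 ≤ l)
    (hP : PP α pc pq (a + 1) (a + l)) :
    TClaim α (l * pq) (R1 pq (l * pc) a) a (a + l) := by
  intro S φ hm A hSA hA
  apply push (h := a + 1) (by omega) (by omega) hm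
  · intro S0 hS0
    apply TClaim_first hFL (by omega) (by omega) (by simp [R1]) (hm.mono hS0)
    · intro s hs
      rw [mem_filter]
      exact ⟨hSA (hS0 hs), by rw [hm.cS s (hS0 hs)]; omega⟩
    · intro u hu
      exact (mem_filter.1 hu).2
  · intro Y ψ hY hYA
    refine TClaim_near (by omega) hP ?_ Y ψ hY A hYA hA
    intro k hk _
    unfold R1
    rw [if_neg (by omega)]

/-- Complementation of a weighted cut claim. -/
theorem dual_of {K a b : ℕ} {R R' : ℕ → ℕ} {S : Finset (Finset α)}
    {φ : Finset α → Finset α} (hm : Mat a b S φ) (hab : a ≤ b)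
    (hT : TClaim α K R (Fintype.card α - b) (Fintype.card α - a))
    (hR : ∀ k, a ≤ k → k < b → R (Fintype.card α - k) = R' k)
    (D : Finset (Finset α)) (hTD : S.image φ ⊆ D) (hD : ∀ u ∈ D, a < u.card) :
    K * S.card ≤ sc K R' a b S D := by
  classical
  rcases S.eq_empty_or_nonempty with hS | ⟨s0, hs0⟩
  · rw [hS]; simp
  set n := Fintype.card α with hn
  have hbn : b ≤ n := by
    rw [← hm.cT s0 hs0]
    exact card_le_univ _
  have hcompl : ∀ u : Finset α, uᶜ.card = n - u.card := fun u => by rw [card_compl]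
  have hle : ∀ u : Finset α, u.card ≤ n := fun u => card_le_univ u
  obtain ⟨g, hg⟩ : ∃ g : Finset α → Finset α, ∀ t ∈ S.image φ, g t ∈ S ∧ φ (g t) = t := by
    have : ∀ t ∈ S.image φ, ∃ s ∈ S, φ s = t := fun t ht => mem_image.1 ht
    choose! f hf using this
    exact ⟨f, hf⟩
  set S' := (S.image φ).image compl with hS'
  let φ' : Finset α → Finset α := fun x => (g xᶜ)ᶜ
  have hS'mem : ∀ x ∈ S', xᶜ ∈ S.image φ := by
    intro x hx
    rw [hS', mem_image] at hx
    obtain ⟨t, ht, rfl⟩ := hx
    rwa [compl_compl]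
  have hm' : Mat (n - b) (n - a) S' φ' := by
    refine ⟨?_, ?_, ?_, ?_⟩
    · intro x hx
      have h1 := hS'mem x hx
      rw [mem_image] at h1
      obtain ⟨s, hs, he⟩ := h1
      have h2 := hm.cT s hs
      rw [he, hcompl] at h2
      have := hle x
      omega
    · intro x hx
      have h1 := (hg _ (hS'mem x hx)).1
      simp only [φ']
      rw [hcompl, hm.cS _ h1]
    · intro x hx y hy he
      simp only [φ'] at he
      rw [compl_inj_iff] at he
      have h1 := (hg _ (hS'mem x (mem_coe.1 hx))).2
      have h2 := (hg _ (hS'mem y (mem_coe.1 hy))).2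
      rw [he, h2] at h1
      exact (compl_inj_iff.1 h1).symm
    · intro x hx
      have h1 := hg _ (hS'mem x hx)
      have h2 := hm.sub _ h1.1
      rw [h1.2] at h2
      simp only [φ']
      intro y hy
      rw [mem_compl]
      intro hy2
      have := h2 hy2
      rw [mem_compl] at this
      exact this hy
  have hcard : S'.card = S.card := by
    rw [hS', card_image_of_injective _ compl_injective, card_image_of_injOn hm.inj]
  have himg : S'.image φ' = S.image compl := by
    ext y
    simp only [mem_image]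
    constructor
    · rintro ⟨x, hx, rfl⟩
      exact ⟨_, (hg _ (hS'mem x hx)).1, rfl⟩
    · rintro ⟨s, hs, rfl⟩
      refine ⟨(φ s)ᶜ, ?_, ?_⟩
      · rw [hS', mem_image]
        exact ⟨φ s, mem_image_of_mem _ hs, rfl⟩
      · simp only [φ', compl_compl]
        congr 1
        have h1 := hg _ (mem_image_of_mem φ hs)
        exact hm.inj (mem_coe.2 h1.1) (mem_coe.2 hs) h1.2
  have hT := hT S' φ' hm' (D.image compl)
    (by
      rw [hS']
      exact image_subset_image hTD)
    (by
      intro u hu
      rw [mem_image] at hu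
      obtain ⟨d, hd, rfl⟩ := hu
      rw [hcompl]
      have := hD d hd
      have := hle d
      omega)
  rw [hcard, himg] at hT
  refine hT.trans (le_of_eq ?_)
  unfold tc sc
  refine sum_bij' (fun v _ => vᶜ) (fun u _ => uᶜ) (by simp) (by simp) (by simp) (by simp) ?_
  intro v _
  have hv : vᶜ.card = n - v.card := hcompl v
  have hvn := hle v
  have e1 : (n - b < v.card ∧ v.card ≤ n - a) ↔ (a ≤ vᶜ.card ∧ vᶜ.card < b) := by
    rw [hv]; omega
  have e2 : v ∉ D.image compl ↔ vᶜ ∉ D := by
    rw [not_iff_not, mem_image]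
    constructor
    · rintro ⟨d, hd, rfl⟩; rwa [compl_compl]
    · intro h; exact ⟨vᶜ, h, compl_compl v⟩
  have e3 : (∃ t ∈ S.image compl, v ⊆ t) ↔ (∃ s ∈ S, s ⊆ vᶜ) := by
    constructor
    · rintro ⟨t, ht, hvt⟩
      rw [mem_image] at ht
      obtain ⟨s, hs, rfl⟩ := ht
      refine ⟨s, hs, ?_⟩
      intro y hy
      rw [mem_compl]
      intro hyv
      have := hvt hyv
      rw [mem_compl] at this
      exact this hy
    · rintro ⟨s, hs, hsv⟩
      refine ⟨sᶜ, mem_image_of_mem _ hs, ?_⟩
      intro y hy
      rw [mem_compl]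
      intro hys
      have := hsv hys
      rw [mem_compl] at this
      exact this hy
  have e4 : dg (D.image compl) v = ub D vᶜ := by
    have := dg_compl D vᶜ
    rwa [compl_compl] at this
  have e5 : (n - b < v.card ∧ v.card ≤ n - a) → R v.card = R' vᶜ.card := by
    intro hh
    have h6 := e1.1 hh
    have h7 := hR vᶜ.card h6.1 h6.2
    rw [← h7, hv]
    congr 1
    omega
  by_cases hc1 : (n - b < v.card ∧ v.card ≤ n - a) ∧ v ∉ D.image compl ∧ ∃ t ∈ S.image compl, v ⊆ t
  · rw [if_pos hc1, if_pos ⟨e1.1 hc1.1, e2.1 hc1.2.1, e3.1 hc1.2.2⟩, e4, e5 hc1.1]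
  · rw [if_neg hc1, if_neg]
    rintro ⟨h1, h2, h3⟩
    exact hc1 ⟨e1.2 h1, e2.2 h2, e3.2 h3⟩

/-- The recursion. -/
theorem PP_rec (hFL : FLsharp α) {c q pc pq l i : ℕ} (hl : 2 ≤ l) (hpq : 0 < pq)
    (hple : pq ≤ l * pc) (hP : ∀ i, PP α pc pq (i + 1) (i + l))
    (hcond : l * pc * q + c * pq ≤ c * (l * pc + l * pq)) : PP α c q i (i + l) := by
  classical
  by_contra hcon
  obtain ⟨S, φ, A, h⟩ := exists_minCex hcon
  obtain ⟨s0, hs0⟩ := h.nonempty
  have hstar := h.star (by omega) hs0
  have hTB := h.T_sub_B (by omega)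
  have hAc := h.cardA (by omega)
  have hcost := cost_B c q i (i + l) S A φ
  have hviol := h.viol
  set j := i + l with hj
  set T := S.image φ with hT
  set B := Bset c q i j T A with hB
  set X := Xset c q i j T A with hX
  have hBXA : ∀ v, v ∈ Mid i j → v ∉ A → v ∉ X → v ∈ B := by
    intro v hv hvA hvX
    rw [hB, mem_B]
    refine ⟨Or.inl hv, hvA, ?_⟩
    by_contra hc
    exact hvX (by rw [hX, mem_X]; exact ⟨Or.inl hv, hvA, by omega⟩)
  have hBc : ∀ v ∈ B, i < v.card ∧ v.card ≤ j := by
    intro v hv
    rw [hB, mem_B] at hv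
    rcases hv.1 with h3 | h3
    · rw [mem_Mid] at h3; omega
    · rw [h.cardT v h3]; omega
  set E1 := ∑ s ∈ S, ub B s with hE1
  set El := ∑ s ∈ S, dg A (φ s) with hEl
  set e := ∑ v ∈ B, dg A v with he
  -- the cost
  have hcost' : cost c q i j T A = c * e + q * X.card := by
    have h1 : ∑ v, ind B v * ((c : ℤ) * dg A v) = ((c * e : ℕ) : ℤ) := by
      rw [he, ← sum_mem B]
      push_cast
      rw [mul_sum]
      refine sum_congr rfl (fun v _ => ?_)
      unfold ind
      split_ifs <;> ring
    rw [h1] at hcost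
    exact_mod_cast hcost
  -- layer one and the last layer
  have hE1' : ∑ v ∈ B.filter (fun v => v.card = i + 1), dg A v = E1 := by
    have h1 := sum_ub_eq A B (fun k => if k = i then 1 else 0)
    have h2 : ∑ u ∈ A, (if u.card = i then 1 else 0) * ub B u = E1 := by
      rw [hE1, ← sum_mem A, ← sum_mem S]
      refine sum_congr rfl (fun u _ => ?_)
      by_cases hu : u ∈ S
      · simp [hu, h.SA hu, h.mat.cS u hu]
      · by_cases huA : u ∈ A
        · have h3 := (h.Amem u huA).resolve_left hu
          rw [mem_Mid] at h3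
          have : u.card ≠ i := by omega
          simp [hu, huA, this]
        · simp [hu, huA]
    rw [← h2, h1, sum_filter]
    refine sum_congr rfl (fun v hv => ?_)
    have := hBc v hv
    by_cases h3 : v.card = i + 1
    · simp [h3]
    · have h4 : v.card - 1 ≠ i := by omega
      simp [h3, h4]
  have hEl' : ∑ v ∈ B.filter (fun v => v.card = j), dg A v = El := by
    have h1 : B.filter (fun v => v.card = j) = T := by
      ext v
      rw [mem_filter]
      constructor
      · rintro ⟨h2, h3⟩
        rw [hB, mem_B] at h2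
        rcases h2.1 with h4 | h4
        · rw [mem_Mid] at h4; omega
        · exact h4
      · intro h2
        exact ⟨hTB h2, h.cardT v h2⟩
    rw [h1, hT, sum_image (fun x hx y hy => h.mat.inj (mem_coe.2 hx) (mem_coe.2 hy))]
  have hle1 : E1 ≤ e := by
    rw [← hE1', he]
    exact sum_le_sum_of_subset (filter_subset _ _)
  have hlel : El ≤ e := by
    rw [← hEl', he]
    exact sum_le_sum_of_subset (filter_subset _ _)
  have hwt : ∀ (P : Finset α → Prop) [DecidablePred P] (x y : ℕ),
      ∑ v ∈ B, (if P v then x else y) * dg A v + y * ∑ v ∈ B.filter P, dg A v =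
        x * ∑ v ∈ B.filter P, dg A v + y * e := by
    intro P _ x y
    rw [he, sum_filter, mul_sum, mul_sum, mul_sum, ← sum_add_distrib, ← sum_add_distrib]
    refine sum_congr rfl (fun v _ => ?_)
    split_ifs <;> ring
  -- the claim from below
  have hTT : l * pq * S.card + l * pc * E1 ≤ l * pq * X.card + pq * E1 + l * pc * e := by
    have h3 := TClaim_one hFL (a := i) hl (hP i) S φ h.mat A h.SA hAc
    have h4 : tc (l * pq) (R1 pq (l * pc) i) i j T A ≤
        l * pq * X.card + ∑ v ∈ B, (if v.card = i + 1 then pq else l * pc) * dg A v := by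
      have h5 : l * pq * X.card = ∑ v ∈ X, l * pq := by
        rw [sum_const, smul_eq_mul, mul_comm]
      rw [h5, ← sum_mem X, ← sum_mem B, ← sum_add_distrib]
      unfold tc
      refine sum_le_sum (fun v _ => ?_)
      by_cases hcond : (i < v.card ∧ v.card ≤ j) ∧ v ∉ A ∧ ∃ t ∈ T, v ⊆ t
      · rw [if_pos hcond]
        obtain ⟨⟨c1, c2⟩, c3, t, ht, hvt⟩ := hcond
        by_cases hvX : v ∈ X
        · rw [if_pos hvX]
          exact (min_le_left _ _).trans (Nat.le_add_right _ _)
        · have hvB : v ∈ B := by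
            by_cases hvj : v.card < j
            · exact hBXA v (mem_Mid.2 ⟨c1, hvj⟩) c3 hvX
            · have : v = t := eq_of_subset_of_card_le hvt (by rw [h.cardT t ht]; omega)
              rw [this]
              exact hTB ht
          rw [if_neg hvX, if_pos hvB, zero_add]
          exact (min_le_right _ _)
      · rw [if_neg hcond]
        exact Nat.zero_le _
    have h6 := hwt (fun v => v.card = i + 1) pq (l * pc)
    rw [hE1'] at h6
    have h7 := h3.trans h4
    omega
  -- the claim from above
  have hSS : l * pq * S.card + l * pc * El ≤ l * pq * X.card + pq * El + l * pc * e := by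
    have hjn : j ≤ Fintype.card α := by
      rw [← h.mat.cT s0 hs0]
      exact card_le_univ _
    have h3 : l * pq * S.card ≤ sc (l * pq) (fun k => if k + 1 = j then pq else l * pc) i j S B := by
      refine dual_of (R := R1 pq (l * pc) (Fintype.card α - j)) h.mat (by omega) ?_ ?_ B hTB
        (fun u hu => (hBc u hu).1)
      · have h4 := TClaim_one hFL (a := Fintype.card α - j) hl (hP _)
        have h5 : Fintype.card α - j + l = Fintype.card α - i := by omega
        rw [h5] at h4
        exact h4
      · intro k hk1 hk2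
        unfold R1
        by_cases h4 : k + 1 = j
        · rw [if_pos h4, if_pos (by omega)]
        · rw [if_neg h4, if_neg (by omega)]
    have h4 : sc (l * pq) (fun k => if k + 1 = j then pq else l * pc) i j S B ≤
        l * pq * X.card + ∑ v ∈ B, (if v.card = j then pq else l * pc) * dg A v := by
      have h5 : l * pq * X.card = ∑ v ∈ X, l * pq := by
        rw [sum_const, smul_eq_mul, mul_comm]
      have h6 := sum_ub_eq A B (fun k => if k + 1 = j then pq else l * pc)
      have h7 : ∑ v ∈ B, (if v.card - 1 + 1 = j then pq else l * pc) * dg A v =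
          ∑ v ∈ B, (if v.card = j then pq else l * pc) * dg A v := by
        refine sum_congr rfl (fun v hv => ?_)
        have := hBc v hv
        have h8 : v.card - 1 + 1 = v.card := by omega
        rw [h8]
      rw [h7] at h6
      rw [← h6, h5, ← sum_mem X, ← sum_mem A, ← sum_add_distrib]
      unfold sc
      refine sum_le_sum (fun u _ => ?_)
      by_cases hcond : (i ≤ u.card ∧ u.card < j) ∧ u ∉ B ∧ ∃ s ∈ S, s ⊆ u
      · rw [if_pos hcond]
        obtain ⟨⟨c1, c2⟩, c3, s, hs, hsu⟩ := hcond
        by_cases huX : u ∈ X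
        · rw [if_pos huX]
          exact (min_le_left _ _).trans (Nat.le_add_right _ _)
        · have huA : u ∈ A := by
            by_cases hui : u.card = i
            · have : s = u := eq_of_subset_of_card_le hsu (by rw [h.mat.cS s hs]; omega)
              rw [← this]
              exact h.SA hs
            · by_contra huA
              exact c3 (hBXA u (mem_Mid.2 ⟨by omega, c2⟩) huA huX)
          rw [if_pos huA]
          exact (min_le_right _ _).trans (Nat.le_add_left _ _)
      · rw [if_neg hcond]
        exact Nat.zero_le _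
    have h6 := hwt (fun v => v.card = j) pq (l * pc)
    rw [hEl'] at h6
    have h7 := h3.trans h4
    omega
  -- conclusion
  have hst2 : 2 * (c * e + q * X.card) ≤ q * (E1 + El) := by
    have h1 : ∑ s ∈ S, (ub B s + dg A (φ s)) = E1 + El := by
      rw [sum_add_distrib]
    rw [h1, hcost'] at hstar
    omega
  rw [hcost'] at hviol
  obtain ⟨d, hd⟩ : ∃ d, l * pc = pq + d := ⟨l * pc - pq, by omega⟩
  -- everything over the integers
  have a1 : (2 : ℤ) * (l * pq * S.card) + d * (E1 + El) ≤ 2 * (l * pq * X.card) + 2 * (l * pc * e) := by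
    have h1 : (l : ℤ) * pc = pq + d := by exact_mod_cast hd
    have h2 : ((l * pq * S.card + l * pc * E1 : ℕ) : ℤ) ≤
        ((l * pq * X.card + pq * E1 + l * pc * e : ℕ) : ℤ) := by exact_mod_cast hTT
    have h3 : ((l * pq * S.card + l * pc * El : ℕ) : ℤ) ≤
        ((l * pq * X.card + pq * El + l * pc * e : ℕ) : ℤ) := by exact_mod_cast hSS
    push_cast at h2 h3
    have h4 : (l : ℤ) * pc * E1 = pq * E1 + d * E1 := by rw [h1]; ring
    have h5 : (l : ℤ) * pc * El = pq * El + d * El := by rw [h1]; ring
    linarith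
  have a2 : (2 : ℤ) * (c * e + q * X.card) ≤ q * (E1 + El) := by exact_mod_cast hst2
  have a3 : (c : ℤ) * e + q * X.card + 1 ≤ q * S.card := by exact_mod_cast hviol
  have a4 : (l : ℤ) * pc * q + c * pq ≤ c * (l * pc + l * pq) := by exact_mod_cast hcond
  have a5 : (l : ℤ) * pc = pq + d := by exact_mod_cast hd
  have b1 := mul_le_mul_of_nonneg_left a1 (by positivity : (0 : ℤ) ≤ q)
  have b2 := mul_le_mul_of_nonneg_left a2 (by positivity : (0 : ℤ) ≤ d)
  have b3 := mul_le_mul_of_nonneg_left a3 (by positivity : (0 : ℤ) ≤ (l : ℤ) * pq)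
  have b4 := mul_le_mul_of_nonneg_left a4 (by positivity : (0 : ℤ) ≤ e)
  have b5 : (0 : ℤ) < (l : ℤ) * pq := by positivity
  have b6 : (0 : ℤ) ≤ (d : ℤ) * (q * X.card) := by positivity
  have b7 : (e : ℤ) * (c * (l * pc + l * pq)) = e * c * (pq + d) + e * c * (l * pq) := by
    rw [a5]; ring
  have b8 : (e : ℤ) * (l * pc * q + c * pq) = e * (l * pc) * q + e * c * pq := by ring
  rw [b7, b8] at b4
  nlinarith

end MP_8b6acb_co.R
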