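import Mathlib
import Pool.Agent.Work.MP_8b6acb_co.Final
import Pool.Agent.Work.MP_8b6acb_co_R.RRec

/-! Half of all systems: the cut condition `(q, l)` for `2 l q ≤ l² + l + 6`. -/

set_option linter.unusedSectionVars false

namespace MP_8b6acb_co.R

open Finset

variable {α : Type*} [Fintype α] [DecidableEq α]

theorem PP_of_old {k q i j : ℕ} (h : _root_.MP_8b6acb_co.PP α q i j) : PP α k (k * q) i j := by
  intro S φ hm A hSA hA
  have h1 := h S φ hm A hSA hA
  have h2 : cost k (k * q) i j (S.image φ) A = k * _root_.MP_8b6acb_co.cost q i j (S.image φ) A := by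
    unfold cost _root_.MP_8b6acb_co.cost
    rw [mul_sum]
    refine sum_congr rfl (fun v _ => ?_)
    split_ifs
    · rw [Nat.mul_min_mul_left]
    · rfl
  rw [h2, mul_assoc]
  exact Nat.mul_le_mul_left _ h1

theorem PP_to_old {c q N i j : ℕ} (hq : 0 < q) (hN : c * N ≤ q) (h : PP α c q i j) :
    _root_.MP_8b6acb_co.PP α N i j := by
  intro S φ hm A hSA hA
  have h1 := h S φ hm A hSA hA
  have h2 : N * cost c q i j (S.image φ) A ≤ q * _root_.MP_8b6acb_co.cost N i j (S.image φ) A := by
    unfold cost _root_.MP_8b6acb_co.cost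
    rw [mul_sum, mul_sum]
    refine sum_le_sum (fun v _ => ?_)
    split_ifs
    · rcases le_total N (dg A v) with h3 | h3
      · rw [min_eq_left h3, mul_comm q N]
        exact Nat.mul_le_mul_left _ (min_le_left _ _)
      · rw [min_eq_right h3]
        calc N * min q (c * dg A v) ≤ N * (c * dg A v) := Nat.mul_le_mul_left _ (min_le_right _ _)
          _ = (c * N) * dg A v := by ring
          _ ≤ q * dg A v := Nat.mul_le_mul_right _ hN
    · simp
  have h3 := Nat.mul_le_mul_left N h1
  have h4 : q * (N * S.card) ≤ q * _root_.MP_8b6acb_co.cost N i j (S.image φ) A := by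
    calc q * (N * S.card) = N * (q * S.card) := by ring
      _ ≤ _ := h3
      _ ≤ _ := h2
  exact Nat.le_of_mul_le_mul_left h4 hq

theorem PP_half (hFL : FLsharp α) : ∀ l, 3 ≤ l → ∀ i, PP α (2 * l) (l * l + l + 6) i (i + l) := by
  intro l hl
  induction l, hl using Nat.le_induction with
  | base =>
    intro i
    have := PP_of_old (k := 6) (PP_three 0 i : _root_.MP_8b6acb_co.PP α 3 i (i + 3 + 0))
    exact this
  | succ l hl ih =>
    intro i
    refine PP_rec hFL (pc := 2 * l) (pq := l * l + l + 6) (l := l + 1) (by omega) (by omega) ?_ ?_ ?_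
    · nlinarith
    · intro i
      have := ih (i + 1)
      have h1 : i + 1 + l = i + (l + 1) := by ring
      rwa [h1] at this
    · apply le_of_eq
      ring

theorem PP_half' (hFL : FLsharp α) {q l : ℕ} (hl : 3 ≤ l) (hq : 2 * l * q ≤ l * l + l + 6) (i : ℕ) :
    _root_.MP_8b6acb_co.PP α q i (i + l) :=
  PP_to_old (by omega) hq (PP_half hFL l hl i)

/-- All numbers of systems allowed by the theorem. -/
theorem PP_all (hFL : FLsharp α) {q i j : ℕ} (hij : i + 2 ≤ j) (hqr : q ≤ j - i)
    (hq : 2 * (j - i) * q ≤ (j - i) * (j - i) + (j - i) + 6) : _root_.MP_8b6acb_co.PP α q i j := by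
  obtain ⟨l, rfl⟩ : ∃ l, j = i + l := ⟨j - i, by omega⟩
  have h1 : i + l - i = l := by omega
  rw [h1] at hq hqr
  rcases Nat.lt_or_ge l 3 with h2 | h2
  · exact PP_le_two (by omega) hij
  · exact PP_half' hFL h2 hq i

end MP_8b6acb_co.R
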