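import Mathlib
import Pool.Agent.Work.MP_8b6acb_co_R.RHalf

/-! Edge-disjoint LR solutions from the sharp first layer inequality. -/

set_option linter.unusedSectionVars false

namespace MP_8b6acb_co.R

open Finset

variable {α : Type*} [Fintype α] [DecidableEq α]

/-- Consecutive layers. -/
theorem PP_one_one {q i : ℕ} (hq : q ≤ 1) : _root_.MP_8b6acb_co.PP α q i (i + 1) := by
  intro S φ hm A hSA hA
  have hcard : (S.image φ).card = S.card := card_image_of_injOn hm.inj
  unfold _root_.MP_8b6acb_co.cost
  calc q * S.card = ∑ t ∈ S.image φ, q := by rw [sum_const, smul_eq_mul, hcard, mul_comm]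
    _ = ∑ v, (if v ∈ S.image φ then q else 0) := (sum_mem _ _).symm
    _ ≤ _ := by
      refine sum_le_sum (fun v _ => ?_)
      by_cases hv : v ∈ S.image φ
      · obtain ⟨s, hs, rfl⟩ := mem_image.1 hv
        have h1 : φ s ∉ A := by
          intro hA'
          rcases hA _ hA' with h2 | h2
          · have h3 := hm.cS _ h2
            have h4 := hm.cT s hs
            omega
          · rw [mem_Mid] at h2; omega
        have h5 : 1 ≤ dg A (φ s) := by
          have h6 : ∃ x ∈ φ s, x ∉ s := by
            by_contra hc
            push Not at hc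
            have := card_le_card hc
            rw [hm.cS s hs, hm.cT s hs] at this
            omega
          obtain ⟨x, hx, hxs⟩ := h6
          have h7 : (φ s).erase x = s := by
            symm
            apply eq_of_subset_of_card_le
            · intro y hy
              rw [mem_erase]
              refine ⟨?_, hm.sub s hs hy⟩
              rintro rfl
              exact hxs hy
            · rw [card_erase_of_mem hx, hm.cS s hs, hm.cT s hs]
              omega
          unfold dg
          rw [Nat.one_le_iff_ne_zero, card_ne_zero]
          exact ⟨x, mem_filter.2 ⟨hx, by rw [h7]; exact hSA hs⟩⟩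
        rw [if_pos hv, if_pos ⟨Or.inr hv, h1⟩]
        exact le_min (le_refl _) (hq.trans h5)
      · rw [if_neg hv]
        exact Nat.zero_le _

theorem half_systems {d i j q : ℕ} (hFL : FLsharp (Fin d)) (hij : i < j) (hqr : q ≤ j - i)
    (hq : 2 * (j - i) * q ≤ (j - i) * (j - i) + (j - i) + 6) (S T : Finset (Vtx d))
    (hS : ∀ s ∈ S, wt s = i) (hT : ∀ t ∈ T, wt t = j) (hST : Matched S T) :
    HasEdgeDisjointLR q S T := by
  rcases Nat.lt_or_ge (j - i) 2 with h1 | h1
  · have h2 : j = i + 1 := by omega
    subst h2
    exact hasEdgeDisjointLR (PP_one_one (by omega)) hij S T hS hT hST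
  · exact hasEdgeDisjointLR (PP_all hFL (by omega) hqr hq) hij S T hS hT hST

end MP_8b6acb_co.R
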